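import Pool.Agent.W550.LG2.Stm

set_option autoImplicit false
open Topology Filter Set
open scoped ContDiff InnerProductSpace

namespace Pool.Agent.W230.LG2

open Pool.Agent.W617.LG Pool.Agent.W550.LG2

lemma frame {q : ℕ} {C : TF q} {x : E q} {e : Fin (q + 1) → E q} (h : AF C x e) :
    ∃ b : OrthonormalBasis (Fin (q + 2)) ℝ (E q), b 0 = ‖x‖⁻¹ • x ∧
      ∀ i : Fin (q + 1), b i.succ = e i := by
  have hx : ‖x‖ ≠ 0 := norm_ne_zero_iff.2 h.x0
  have hf : Orthonormal ℝ (Fin.cons (‖x‖⁻¹ • x) e : Fin (q + 2) → E q) := by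
    rw [orthonormal_iff_ite]
    intro i j
    refine Fin.cases ?_ (fun i => ?_) i
    · refine Fin.cases ?_ (fun j => ?_) j
      · simp only [Fin.cons_zero, if_true]
        rw [inner_smul_left, inner_smul_right, real_inner_self_eq_norm_sq]
        simp only [conj_trivial]
        field_simp
      · simp only [Fin.cons_zero, Fin.cons_succ]
        rw [inner_smul_left, h.rad, mul_zero, if_neg (Fin.succ_ne_zero j).symm]
    · refine Fin.cases ?_ (fun j => ?_) j
      · simp only [Fin.cons_zero, Fin.cons_succ]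
        rw [inner_smul_right, real_inner_comm, h.rad, mul_zero, if_neg (Fin.succ_ne_zero i)]
      · simp only [Fin.cons_succ]
        rw [h.on]
        simp only [Fin.succ_inj]
  have hB := coe_basisOfOrthonormalOfCardEqFinrank hf (by simp)
  have hb : Orthonormal ℝ (basisOfOrthonormalOfCardEqFinrank hf (by simp)) := by
    rw [hB]; exact hf
  refine ⟨(basisOfOrthonormalOfCardEqFinrank hf (by simp)).toOrthonormalBasis hb, ?_, fun i => ?_⟩
  · rw [Module.Basis.coe_toOrthonormalBasis, hB, Fin.cons_zero]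
  · rw [Module.Basis.coe_toOrthonormalBasis, hB, Fin.cons_succ]

theorem expn {q : ℕ} {C : TF q} {x : E q} {e : Fin (q + 1) → E q} (h : AF C x e) (v : E q) :
    v = (⟪x, v⟫_ℝ / ‖x‖ ^ 2) • x + ∑ i, ⟪e i, v⟫_ℝ • e i := by
  obtain ⟨b, h0, hs⟩ := frame h
  have hx : ‖x‖ ≠ 0 := norm_ne_zero_iff.2 h.x0
  have h1 := b.sum_repr' v
  rw [Fin.sum_univ_succ, h0] at h1
  simp only [hs] at h1
  rw [inner_smul_left, smul_smul] at h1
  have h2 : (starRingEnd ℝ) ‖x‖⁻¹ * ⟪x, v⟫_ℝ * ‖x‖⁻¹ = ⟪x, v⟫_ℝ / ‖x‖ ^ 2 := by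
    simp only [conj_trivial]
    field_simp
  rw [h2] at h1
  exact h1.symm

theorem sExp : S_EXP := by
  intro q C τ hL x e h
  have hx : ‖x‖ ≠ 0 := norm_ne_zero_iff.2 h.x0
  refine ⟨expn h, fun A => ?_, fun a c => ?_⟩
  · obtain ⟨b, h0, hs⟩ := frame h
    rw [LinearMap.trace_eq_sum_inner _ b, Fin.sum_univ_succ, h0]
    simp only [hs]
    congr 1
    · rw [inner_smul_left]
      simp only [ContinuousLinearMap.coe_coe, map_smul, conj_trivial]
      rw [inner_smul_right, real_inner_comm]
      field_simp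
    · refine Finset.sum_congr rfl fun i _ => ?_
      rw [real_inner_comm]
      rfl
  · have hd : ∀ i, C x (e i) (e i) = lam C x (e i) • e i := by
      intro i
      have h1 := expn h (C x (e i) (e i))
      have h2 : ⟪x, C x (e i) (e i)⟫_ℝ = 0 := by
        rw [real_inner_comm, hL.symm x h.x0, hL.comm12 x h.x0 (e i) x, hL.rad x h.x0]
        simp
      have h3 : ∀ j, j ≠ i → ⟪e j, C x (e i) (e i)⟫_ℝ • e j = 0 := by
        intro j hj
        rw [real_inner_comm, hL.symm x h.x0, h.diag i j hj.symm]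
        simp
      rw [h2, zero_div, zero_smul, zero_add, Finset.sum_eq_single i (fun j _ hj => h3 j hj)
        (by simp)] at h1
      refine h1.trans ?_
      unfold lam
      rw [real_inner_comm]
    have hA : ∀ a : E q, C x a = ∑ i, ⟪e i, a⟫_ℝ • C x (e i) := by
      intro a
      conv_lhs => rw [expn h a]
      have h0 : ∀ r : ℝ, C x (r • x) = 0 := by
        intro r
        have h1 : C x (r • x) = r • C x x := (C x).map_smul r x
        have h2 : C x x = 0 := hL.rad x h.x0
        rw [h1, h2]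
        exact smul_zero (A := E q →L[ℝ] E q) r
      rw [map_add, h0, zero_add, map_sum]
      refine Finset.sum_congr rfl fun i _ => ?_
      rw [map_smul]
    have hi : ∀ i, C x (e i) c = ⟪e i, c⟫_ℝ • C x (e i) (e i) := by
      intro i
      rw [hL.comm12 x h.x0, hA c, _root_.sum_apply,
        Finset.sum_eq_single i]
      · rfl
      · intro j _ hj
        rw [_root_.smul_apply, h.diag j i hj, smul_zero]
      · simp
    rw [hA a, _root_.sum_apply]
    refine Finset.sum_congr rfl fun i _ => ?_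
    rw [_root_.smul_apply, hi, hd, smul_smul, smul_smul]
    congr 1
    ring

end Pool.Agent.W230.LG2
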